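import Pool.Agent.Helper89K9.MA.Stm

/-!
# [NUM1]
-/

set_option autoImplicit false

namespace Pool.Agent.Helper22K9.MA

open Pool.Agent.Helper89K9.MA
open Pool.Agent.Helper89K9.MC (lam)

theorem lam_one_le (p D : ℕ) (hp : 3 ≤ p) : 1 ≤ lam p D := by
  have h1 : (1 : ℝ) ≤ p := by exact_mod_cast (by omega : 1 ≤ p)
  have h2 : (1 : ℝ) ≤ 2 ^ (p - 1) := one_le_pow₀ (by norm_num)
  exact one_le_pow₀ (by nlinarith)

/-- `(1 - 1 / l) ^ N ≤ 2 ^ (- N / l)` -/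
theorem pow_le_two_rpow (l : ℝ) (hl : 1 ≤ l) (N : ℕ) :
    (1 - 1 / l) ^ N ≤ (2 : ℝ) ^ (-(N / l) : ℝ) := by
  have h0 : (0 : ℝ) ≤ 1 / l := by positivity
  have h1 : 1 / l ≤ 1 := by rw [div_le_one (by linarith)]; exact hl
  have h2 : (1 - 1 / l) ≤ (2 : ℝ) ^ (-(1 / l) : ℝ) := by
    have h3 : (1 - 1 / l) ≤ Real.exp (-(1 / l)) := by
      have := Real.add_one_le_exp (-(1 / l))
      linarith
    refine h3.trans ?_
    rw [Real.rpow_def_of_pos (by norm_num)]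
    refine Real.exp_le_exp.2 ?_
    have h4 : Real.log 2 ≤ 1 := by
      have := Real.log_two_lt_d9
      linarith
    nlinarith
  calc (1 - 1 / l) ^ N ≤ ((2 : ℝ) ^ (-(1 / l) : ℝ)) ^ N :=
        pow_le_pow_left₀ (by linarith) h2 N
    _ = (2 : ℝ) ^ (-(N / l) : ℝ) := by
        rw [← Real.rpow_natCast, ← Real.rpow_mul (by norm_num)]
        congr 1
        ring

/-- [NUM1] -/
theorem num1 : S_NUM1 := by
  intro n K p D s e τ hn hp hK he hs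
  have hl := lam_one_le p D hp
  set l := lam p D with hldef
  have hl0 : 0 < l := by linarith
  have hp0 : (0 : ℝ) < p := by exact_mod_cast (by omega : 0 < p)
  have hnR : (256 : ℝ) ≤ n := by exact_mod_cast hn
  have heR : 32 * (e : ℝ) ≤ n := by exact_mod_cast he
  have h16 : ((n / 16 : ℕ) : ℝ) ≤ n / 16 := Nat.cast_div_le
  have h8 : (n : ℝ) / 8 - 1 ≤ ((n / 8 : ℕ) : ℝ) := by
    have := Nat.lt_mul_div_succ n (by norm_num : 0 < 8)
    have h : (n : ℝ) < 8 * (((n / 8 : ℕ) : ℝ) + 1) := by exact_mod_cast this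
    linarith
  have h4 : (n * K : ℝ) / 4 - 1 ≤ ((n * K / 4 : ℕ) : ℝ) := by
    have := Nat.lt_mul_div_succ (n * K) (by norm_num : 0 < 4)
    have h : (n * K : ℝ) < 4 * (((n * K / 4 : ℕ) : ℝ) + 1) := by exact_mod_cast this
    linarith
  have hpow : ((p : ℝ) ^ s) ^ τ = (2 : ℝ) ^ (s * Real.logb 2 p * τ) := by
    rw [← pow_mul, mul_right_comm, mul_comm ((s : ℝ) * τ), Real.rpow_mul (by norm_num),
      Real.rpow_logb (by norm_num) (by norm_num) hp0, ← Real.rpow_natCast]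
    push_cast
    rfl
  have hr := pow_le_two_rpow l hl (n * K / 4)
  have hnK : (n : ℝ) ≤ n * K / l := by
    rw [le_div_iff₀ hl0]
    exact mul_le_mul_of_nonneg_left hK (by linarith)
  have hs' : s * Real.logb 2 p * τ ≤ (n * K / l) / 8 := by
    rw [div_div, le_div_iff₀ (by positivity)]
    linarith
  have hN : ((n * K / l) / 4 - 1 : ℝ) ≤ ((n * K / 4 : ℕ) : ℝ) / l := by
    have h5 : ((n * K : ℝ) / 4 - 1) / l ≤ ((n * K / 4 : ℕ) : ℝ) / l :=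
      div_le_div_of_nonneg_right h4 hl0.le
    have h6 : ((n * K : ℝ) / 4 - 1) / l = (n * K / l) / 4 - 1 / l := by ring
    have h7 : 1 / l ≤ 1 := by rw [div_le_one hl0]; exact hl
    linarith
  have e1 : (2 : ℝ) ^ e = (2 : ℝ) ^ (e : ℝ) := (Real.rpow_natCast 2 e).symm
  have e2 : (1 : ℝ) / 2 ^ (n / 8) = (2 : ℝ) ^ (-((n / 8 : ℕ) : ℝ)) := by
    rw [Real.rpow_neg (by norm_num), Real.rpow_natCast, one_div]
  have e3 : (1 : ℝ) / 2 ^ (n / 16) = (2 : ℝ) ^ (-((n / 16 : ℕ) : ℝ)) := by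
    rw [Real.rpow_neg (by norm_num), Real.rpow_natCast, one_div]
  have hA : (2 : ℝ) ^ e * (1 / 2 ^ (n / 8)) ≤ (2 : ℝ) ^ (-(n / 16 : ℝ) - 2) := by
    rw [e1, e2, ← Real.rpow_add (by norm_num)]
    refine Real.rpow_le_rpow_of_exponent_le (by norm_num) ?_
    linarith
  have hB : (2 : ℝ) ^ e * (((p : ℝ) ^ s) ^ τ * (1 - 1 / l) ^ (n * K / 4)) ≤
      (2 : ℝ) ^ (-(n / 16 : ℝ) - 2) := by
    calc (2 : ℝ) ^ e * (((p : ℝ) ^ s) ^ τ * (1 - 1 / l) ^ (n * K / 4))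
        ≤ (2 : ℝ) ^ e * (((p : ℝ) ^ s) ^ τ * (2 : ℝ) ^ (-(((n * K / 4 : ℕ) : ℝ) / l) : ℝ)) := by
          gcongr
      _ = (2 : ℝ) ^ ((e : ℝ) + (s * Real.logb 2 p * τ + (-(((n * K / 4 : ℕ) : ℝ) / l)))) := by
          rw [e1, hpow, Real.rpow_add (by norm_num), Real.rpow_add (by norm_num)]
      _ ≤ _ := by
          refine Real.rpow_le_rpow_of_exponent_le (by norm_num) ?_
          linarith
  have hC : 2 * (2 : ℝ) ^ (-(n / 16 : ℝ) - 2) ≤ (1 / 2 ^ (n / 16) : ℝ) / 2 := by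
    rw [e3, Real.rpow_sub (by norm_num)]
    have h9 : (2 : ℝ) ^ (-(n / 16 : ℝ)) ≤ (2 : ℝ) ^ (-((n / 16 : ℕ) : ℝ)) :=
      Real.rpow_le_rpow_of_exponent_le (by norm_num) (by linarith)
    have h10 : (2 : ℝ) ^ (2 : ℝ) = 4 := by norm_num
    rw [h10]
    linarith
  rw [mul_add]
  linarith

end Pool.Agent.Helper22K9.MA
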