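import Pool.Agent.Helper89K9.MA.Stm

/-!
# [RP] the choice of `a`
-/

set_option autoImplicit false

namespace Pool.Agent.Helper22K9.MA

open Pool.Agent.Helper89K9.MA

/-- the size of one side of the index set -/
theorem side_ge (q t : ℕ) (hq : 2 ≤ q) (ht : 1 ≤ t) :
    (q : ℝ) ≤ 2 * t * (((q - 2) / t + 1 : ℕ) : ℝ) := by
  have h1 : q ≤ 2 * (t * ((q - 2) / t + 1)) := by
    have h2 := Nat.lt_mul_div_succ (q - 2) (by omega : 0 < t)
    omega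
  have h3 : ((q : ℕ) : ℝ) ≤ ((2 * (t * ((q - 2) / t + 1)) : ℕ) : ℝ) := by exact_mod_cast h1
  have h4 : ((2 * (t * ((q - 2) / t + 1)) : ℕ) : ℝ) = 2 * t * (((q - 2) / t + 1 : ℕ) : ℝ) := by
    push_cast; ring
  rw [h4] at h3
  exact h3

/-- [RP] -/
theorem rp : S_RP := by
  intro n t ht hn
  have h2t : 1 < 2 ^ t := Nat.one_lt_two_pow (by omega)
  have hn0 : n ≠ 0 := by
    have : 0 < 2 ^ t := by positivity
    omega
  refine ⟨Nat.log (2 ^ t) n, Nat.log_pos h2t hn, ?_⟩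
  set a := Nat.log (2 ^ t) n with ha
  have ha1 : 1 ≤ a := Nat.log_pos h2t hn
  have hlow : (2 ^ a) ^ t ≤ n := by
    have := Nat.pow_log_le_self (2 ^ t) hn0
    rw [← ha] at this
    rwa [← pow_mul, mul_comm, pow_mul]
  have hup : n < (2 * 2 ^ a) ^ t := by
    have := Nat.lt_pow_succ_log_self h2t n
    rw [← ha] at this
    have h1 : (2 ^ t) ^ a.succ = (2 * 2 ^ a) ^ t := by
      rw [← pow_mul, ← pow_succ', ← pow_mul, Nat.succ_eq_add_one, mul_comm]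
    rwa [h1] at this
  have hq2 : 2 ≤ 2 ^ a := by
    calc 2 = 2 ^ 1 := by norm_num
      _ ≤ 2 ^ a := Nat.pow_le_pow_right (by norm_num) ha1
  obtain ⟨t', rfl⟩ : ∃ t', t = t' + 1 := ⟨t - 1, by omega⟩
  rw [Nat.add_sub_cancel]
  set m : ℕ := (2 ^ a - 2) / (t' + 1) + 1 with hm
  have hm1 := side_ge (2 ^ a) (t' + 1) hq2 ht
  rw [← hm] at hm1
  set q : ℝ := 2 ^ a with hq
  have hqc : ((2 ^ a : ℕ) : ℝ) = q := by rw [hq]; push_cast; rfl
  rw [hqc] at hm1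
  have hq2' : (2 : ℝ) ≤ q := by rw [← hqc]; exact_mod_cast hq2
  have hupR : (n : ℝ) ≤ (2 * q) ^ (t' + 1) := by
    have h1 : ((n : ℕ) : ℝ) ≤ (((2 * 2 ^ a) ^ (t' + 1) : ℕ) : ℝ) := by exact_mod_cast hup.le
    rw [← hqc]
    push_cast at h1 ⊢
    exact h1
  have hnpos : (0 : ℝ) < n := by exact_mod_cast Nat.pos_of_ne_zero hn0
  have hnR : (2 : ℝ) ^ (t' + 1) * n ≤ (8 * ((t' + 1 : ℕ) : ℝ)) ^ (t' + 1) * (m : ℝ) ^ (t' + 1) := by
    rw [← mul_pow]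
    have h1 : (2 : ℝ) ^ (t' + 1) * n ≤ 2 ^ (t' + 1) * (2 * q) ^ (t' + 1) :=
      mul_le_mul_of_nonneg_left hupR (by positivity)
    refine h1.trans ?_
    rw [← mul_pow]
    refine pow_le_pow_left₀ (by positivity) ?_ _
    nlinarith
  have hexp : ((t' : ℝ) + 1) * (1 - 1 / ((t' : ℝ) + 1)) = t' := by
    have : (t' : ℝ) + 1 ≠ 0 := by positivity
    field_simp
    ring
  have hy : (n : ℝ) ^ (1 - 1 / (((t' + 1 : ℕ) : ℝ))) ≤ (2 * q) ^ t' := by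
    have h0 : (0 : ℝ) ≤ 1 - 1 / (((t' + 1 : ℕ) : ℝ)) := by
      push_cast
      have h3 : 1 / ((t' : ℝ) + 1) ≤ 1 := by
        rw [div_le_one (by positivity)]
        have : (0 : ℝ) ≤ t' := Nat.cast_nonneg _
        linarith
      linarith
    refine (Real.rpow_le_rpow hnpos.le hupR h0).trans (le_of_eq ?_)
    rw [← Real.rpow_natCast, ← Real.rpow_mul (by positivity)]
    push_cast
    rw [hexp, Real.rpow_natCast]
  refine ⟨hlow, ?_, ?_, ?_⟩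
  · have h1 : (3 : ℝ) - 1 / (((t' + 1 : ℕ) : ℝ)) = 2 + (1 - 1 / (((t' + 1 : ℕ) : ℝ))) := by ring
    rw [h1, Real.rpow_add hnpos]
    have h2 : (n : ℝ) ^ (2 : ℝ) = n ^ 2 := by norm_cast
    rw [h2]
    calc (n : ℝ) ^ 2 * (n : ℝ) ^ (1 - 1 / (((t' + 1 : ℕ) : ℝ)))
        ≤ (n : ℝ) ^ 2 * (2 * q) ^ t' := mul_le_mul_of_nonneg_left hy (by positivity)
      _ = (2 ^ (t' + 1) * n) / 2 * (n * q ^ t') := by
          rw [mul_pow, pow_succ (2 : ℝ) t']; ring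
      _ ≤ ((8 * ((t' + 1 : ℕ) : ℝ)) ^ (t' + 1) * (m : ℝ) ^ (t' + 1)) / 2 * (n * q ^ t') := by
          have : (0 : ℝ) ≤ n * q ^ t' := by positivity
          nlinarith
      _ = _ := by ring
  · have h1 : (5 / 2 : ℝ) - 1 / (2 * (((t' + 1 : ℕ) : ℝ)))
        = 2 + (1 - 1 / (((t' + 1 : ℕ) : ℝ))) * (1 / 2) := by
      have : (((t' + 1 : ℕ) : ℝ)) ≠ 0 := by positivity
      field_simp
      ring
    rw [h1, Real.rpow_add hnpos, Real.rpow_mul hnpos.le, ← Real.sqrt_eq_rpow]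
    have h2 : (n : ℝ) ^ (2 : ℝ) = n ^ 2 := by norm_cast
    rw [h2]
    have h3 : Real.sqrt ((n : ℝ) ^ (1 - 1 / (((t' + 1 : ℕ) : ℝ)))) ≤
        2 ^ t' * Real.sqrt (q ^ t') := by
      refine (Real.sqrt_le_sqrt hy).trans ?_
      rw [mul_pow, Real.sqrt_mul (by positivity)]
      refine mul_le_mul_of_nonneg_right ?_ (Real.sqrt_nonneg _)
      rw [Real.sqrt_le_left (by positivity)]
      have : (1 : ℝ) ≤ 2 ^ t' := one_le_pow₀ (by norm_num)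
      nlinarith
    calc (n : ℝ) ^ 2 * Real.sqrt ((n : ℝ) ^ (1 - 1 / (((t' + 1 : ℕ) : ℝ))))
        ≤ (n : ℝ) ^ 2 * (2 ^ t' * Real.sqrt (q ^ t')) := mul_le_mul_of_nonneg_left h3 (by positivity)
      _ ≤ (2 ^ (t' + 1) * n) * (n * Real.sqrt (q ^ t')) := by
          have h4 : (0 : ℝ) ≤ n * (2 ^ t' * (n * Real.sqrt (q ^ t'))) := by positivity
          rw [pow_succ (2 : ℝ) t']
          nlinarith
      _ ≤ ((8 * ((t' + 1 : ℕ) : ℝ)) ^ (t' + 1) * (m : ℝ) ^ (t' + 1)) * (n * Real.sqrt (q ^ t')) :=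
          mul_le_mul_of_nonneg_right hnR (by positivity)
      _ = _ := by ring
  · intro ht2 x hx hxn
    obtain ⟨s, rfl⟩ : ∃ s, t' = s + 1 := ⟨t' - 1, by omega⟩
    have h1 : (2 ^ (s + 1 + 1) * x) ^ 2 ≤ (2 * q) ^ (s + 1 + 1) := hxn.trans hupR
    have h2 : x ^ 2 ≤ q ^ (s + 1 + 1) := by
      rw [mul_pow, mul_pow] at h1
      have h3 : (1 : ℝ) ≤ 2 ^ (s + 1 + 1) := one_le_pow₀ (by norm_num)
      have h4 : ((2 : ℝ) ^ (s + 1 + 1)) ^ 2 * x ^ 2 = 2 ^ (s + 1 + 1) * (2 ^ (s + 1 + 1) * x ^ 2) := by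
        ring
      rw [h4] at h1
      have h5 := le_of_mul_le_mul_left h1 (by positivity)
      have h6 : (0 : ℝ) ≤ x ^ 2 := by positivity
      nlinarith
    have h3 : q ^ (s + 1 + 1) ≤ (q ^ (s + 1)) ^ 2 := by
      have hq1 : (1 : ℝ) ≤ q := by linarith
      have h7 : (q ^ (s + 1)) ^ 2 = q ^ ((s + 1) * 2) := (pow_mul q (s + 1) 2).symm
      rw [h7]
      exact pow_le_pow_right₀ hq1 (by omega)
    have h4 : (0 : ℝ) ≤ q ^ (s + 1) := by positivity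
    exact abs_le_of_sq_le_sq' (h2.trans h3) h4 |>.2

end Pool.Agent.Helper22K9.MA
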